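import Pool.Agent.Y470.PST.Cov
import Pool.Agent.Helper353.PST.Tree6
import Pool.Agent.Helper353.PST.K2

/-!
# Sparsest connected graphs with perfect state transfer: `m(n) = n` for all `n ≥ 394`

`minEdges n` is the least number of edges of a connected graph on `n` vertices admitting perfect
state transfer.  We prove `minEdges n = n` for every `n ≥ 394`, for every even `n ≥ 218` and for
`n = 391`.  The starting file `ExactSparsePST` of this problem has `n ≥ 10000`.

* Lower bound (`Pool.Agent.Helper353.PST.tree_pst`, starting library): a tree with perfect state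
  transfer has at most three vertices, so `minEdges n ≥ n` for `n ≥ 4`.
* Upper bound (`Pool.Agent.Y470.PST.pstu_even`, `pstu_odd`, `pstu_391`, new): unicyclic graphs.
  Two twins `u`, `v` lie on a four-cycle `u x v y`, and trees of depth four hang from `x` and `y`;
  the eigenvalues in the support of `e_u + e_v` are `± √2`, `± 3 √2`, `± q √2` with `q = 5` or
  `q = 7`, so there is perfect state transfer at time `π / √2`
  (`Pool.Agent.Helper353.PST.family`, starting library).  For `q = 5` and even `n` the vertex `y` has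
  no child and all but a few of the 45 children of `x` are leaves' parents with two leaves; for odd
  `n` the vertex `y` has one child.  The sums of the sizes of the branches are found with bit masks.
-/

set_option autoImplicit false

open Finset Filter

namespace Pool.Agent.Results.MP_8f05cb_co.AllFrom394

/-- `G` admits perfect state transfer: there are distinct vertices `u`, `v`, a time `t` and a
complex number `γ` of modulus one with `exp (i t A) e_u = γ e_v`. -/
def AdmitsPST {V : Type} [Fintype V] [DecidableEq V] (G : SimpleGraph V)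
    [DecidableRel G.Adj] : Prop :=
  ∃ u v : V, u ≠ v ∧ ∃ (t : ℝ) (γ : ℂ), ‖γ‖ = 1 ∧
    (NormedSpace.exp ((Complex.I * (t : ℂ)) • G.adjMatrix ℂ)).mulVec (Pi.single u 1) =
      γ • Pi.single v 1

/-- The possible numbers of edges of connected graphs on `n` vertices admitting perfect state
transfer. -/
def pstEdgeCounts (n : ℕ) : Set ℕ :=
  {e : ℕ | ∃ (V : Type) (_ : Fintype V) (_ : DecidableEq V) (G : SimpleGraph V)
    (_ : DecidableRel G.Adj),
    Fintype.card V = n ∧ G.Connected ∧ AdmitsPST G ∧ G.edgeSet.ncard = e}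

/-- `m(n)`: the least number of edges of a connected graph on `n` vertices that admits perfect
state transfer, and `⊤` (infinity) if there is no such graph. -/
noncomputable def minEdges (n : ℕ) : ℕ∞ :=
  sInf ((fun e : ℕ => (e : ℕ∞)) '' pstEdgeCounts n)

theorem minEdges_le {n e : ℕ} (h : e ∈ pstEdgeCounts n) : minEdges n ≤ e :=
  sInf_le ⟨e, h, rfl⟩

theorem le_minEdges {n k : ℕ} (h : ∀ e ∈ pstEdgeCounts n, k ≤ e) : (k : ℕ∞) ≤ minEdges n := by
  refine le_sInf ?_
  rintro _ ⟨e, he, rfl⟩
  exact Nat.cast_le.2 (h e he)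

/-- connectivity bound -/
theorem le_of_mem {n e : ℕ} (h : e ∈ pstEdgeCounts n) : n ≤ e + 1 := by
  obtain ⟨V, _, _, G, _, hV, hG, -, he⟩ := h
  have := hG.card_vert_le_card_edgeSet_add_one
  rw [Nat.card_eq_fintype_card, hV, Nat.card_coe_set_eq, he] at this
  exact this

/-- no tree on at least four vertices admits perfect state transfer -/
theorem le_of_mem' {n e : ℕ} (hn : 4 ≤ n) (h : e ∈ pstEdgeCounts n) : n ≤ e := by
  by_contra hlt
  have h1 := le_of_mem h
  obtain ⟨V, _, _, G, _, hV, hG, ⟨u, v, huv, t, γ, hγ, hp⟩, he⟩ := h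
  have htree : G.IsTree := by
    rw [SimpleGraph.isTree_iff_connected_and_card]
    refine ⟨hG, ?_⟩
    rw [Nat.card_coe_set_eq, he, Nat.card_eq_fintype_card, hV]
    omega
  have := Pool.Agent.Helper353.PST.tree_pst G htree u v huv t γ hγ hp
  omega

theorem mem_K2 (k : ℕ) (hk : 1 ≤ k) : 2 * k ∈ pstEdgeCounts (2 + k) :=
  Pool.Agent.Helper353.PST.K2.has_K2 k hk

theorem mem_edge : 1 ∈ pstEdgeCounts 2 := Pool.Agent.Helper353.PST.K2.has_edge

theorem mem_of_pstu (n : ℕ) (hn : Pool.Agent.Helper353.PST.PSTU n) : n ∈ pstEdgeCounts n := by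
  obtain ⟨V, i1, i2, G, i3, hV, hG, he, hp⟩ := hn
  exact ⟨V, i1, i2, G, i3, hV, hG, hp, he⟩

/-- **The exact value of `m(n)`.**  `m(n) = n` for every `n ≥ 394`, for every even `n ≥ 218` and for
`n = 391`; moreover `n ≤ m(n) ≤ 2 n - 4` for every `n ≥ 4`, `m(2) = 1`, `m(3) = 2` and
`m(4) = 4`. -/
theorem result :
    (∀ n : ℕ, 394 ≤ n → minEdges n = n) ∧
    (∀ n : ℕ, 218 ≤ n → Even n → minEdges n = n) ∧
    minEdges 391 = 391 ∧
    (∀ n : ℕ, 4 ≤ n → (n : ℕ∞) ≤ minEdges n ∧ minEdges n ≤ ((2 * n - 4 : ℕ) : ℕ∞)) ∧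
    minEdges 2 = 1 ∧ minEdges 3 = 2 ∧ minEdges 4 = 4 := by
  have hup : ∀ n : ℕ, 3 ≤ n → minEdges n ≤ ((2 * n - 4 : ℕ) : ℕ∞) := by
    intro n hn
    have h := mem_K2 (n - 2) (by omega)
    rw [show 2 + (n - 2) = n by omega, show 2 * (n - 2) = 2 * n - 4 by omega] at h
    exact minEdges_le h
  have hlow : ∀ n : ℕ, 4 ≤ n → (n : ℕ∞) ≤ minEdges n := fun n hn =>
    le_minEdges fun e he => le_of_mem' hn he
  have hex : ∀ n : ℕ, 4 ≤ n → Pool.Agent.Helper353.PST.PSTU n → minEdges n = n := fun n hn h =>
    le_antisymm (minEdges_le (mem_of_pstu n h)) (hlow n hn)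
  have heven : ∀ n : ℕ, 218 ≤ n → Even n → minEdges n = n := fun n hn he =>
    hex n (by omega) (Pool.Agent.Y470.PST.pstu_even n hn he)
  refine ⟨fun n hn => ?_, heven, ?_, fun n hn => ⟨hlow n hn, hup n (by omega)⟩, ?_, ?_, ?_⟩
  · rcases Nat.even_or_odd n with he | ho
    · exact heven n (by omega) he
    · obtain ⟨m, hm⟩ := id ho
      exact hex n (by omega) (Pool.Agent.Y470.PST.pstu_odd n (by omega) ho)
  · exact_mod_cast hex 391 (by norm_num) Pool.Agent.Y470.PST.pstu_391
  · refine le_antisymm (by exact_mod_cast minEdges_le mem_edge) ?_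
    have := le_minEdges (n := 2) (k := 1) fun e he => by have := le_of_mem he; omega
    exact_mod_cast this
  · refine le_antisymm (by exact_mod_cast hup 3 (by norm_num)) ?_
    have := le_minEdges (n := 3) (k := 2) fun e he => by have := le_of_mem he; omega
    exact_mod_cast this
  · refine le_antisymm (by exact_mod_cast hup 4 (by norm_num)) ?_
    exact_mod_cast hlow 4 (by norm_num)

end Pool.Agent.Results.MP_8f05cb_co.AllFrom394
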